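import Pool.Agent.Lib.MP_5c0be7_lc.Defs
import Pool.Agent.Lib.MP_5c0be7_lc.K.Cert

/-!
Project KM, top level: the smallness hypothesis, the two halves of the proof, and their assembly.
-/

namespace Pool.Agent.KM

open Ordinal Tr Pool.Agent.Lib.MP_5c0be7_lc

universe u

/-- Below `Om`, every countably complete extender on top of a sound hierarchy has a small
critical point. -/
def NG (Om : Ordinal.{u}) : Prop :=
  ∀ (E : Seq.{u}) v k t e, v < Om → LS E v → Act E v k t e → OC E E k t e → Small E k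

/-- Block G: a countably complete measure at a limit of strong ordinals gives the inner models. -/
class GrenSt : Prop where
  gren : ∀ (E : Seq.{u}) v k t e, _root_.Small.{0} (Set.Iio v) → LS E v → Act E v k t e →
    (∀ X : ℕ → Tr.{u}, (∀ n, In t (X n) ∧ Nm E ((X n).map e) (leaf k)) →
      ∃ a, In k a ∧ ∀ n, Nm E (X n) a) → ¬ Small E k → ConcA ∧ ConcB ∧ ConcC

/-- Blocks K and T: under the smallness hypothesis the perfect set property fails. -/
class CovSt : Prop where
  cov : NG Ordinal.univ.{0, 1} → ¬ HypH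

theorem OC.seed {E : Seq.{u}} {k t : Ordinal.{u}} {e : Ordinal.{u} → Ordinal.{u}}
    (h : OC E E k t e) (hk : k < e k) (X : ℕ → Tr.{u})
    (hX : ∀ n, In t (X n) ∧ Nm E ((X n).map e) (leaf k)) : ∃ a, In k a ∧ ∀ n, Nm E (X n) a := by
  obtain ⟨th, h1, h2⟩ := h (insert k (⋃ n, (X n).lv))
    ((Set.countable_iUnion fun n => (lv_finite _).countable).insert k)
  refine ⟨leaf (th k), by simpa using h1 k (Set.mem_insert _ _) hk, fun n => ?_⟩
  exact (h2 (X n) (leaf k) ((Set.subset_iUnion (fun n => (X n).lv) n).trans (Set.subset_insert _ _))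
    (hX n).1 (by simp) (by simpa using hk)).1 (hX n).2

theorem small_of_lt_univ {v : Ordinal.{1}} (h : v < Ordinal.univ.{0, 1}) :
    _root_.Small.{0} (Set.Iio v) := by
  obtain ⟨w, rfl⟩ : v ∈ Set.range Ordinal.lift.{1, 0} :=
    Ordinal.liftPrincipalSeg.{0, 1}.mem_range_iff_rel.2 h
  refine small_of_surjective (f := fun a : Set.Iio w =>
    (⟨Ordinal.lift.{1} a.1, Ordinal.lift_lt.2 a.2⟩ : Set.Iio (Ordinal.lift.{1, 0} w))) ?_
  rintro ⟨a, ha⟩
  obtain ⟨b, hb, rfl⟩ := Ordinal.lt_lift_iff.1 ha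
  exact ⟨⟨b, hb⟩, rfl⟩

/-- The assembly. -/
theorem main [GrenSt.{1}] [CovSt] (H : HypH) : ConcA ∧ ConcB ∧ ConcC := by
  by_contra hc
  refine CovSt.cov (fun E v k t e hv ls act oc => ?_) H
  by_contra hs
  exact hc (GrenSt.gren E v k t e (small_of_lt_univ hv) ls act (oc.seed act.move) hs)

end Pool.Agent.KM
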