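import Pool.Agent.Lib.MP_5c0be7_lc.C.Br
import Pool.Agent.Lib.MP_5c0be7_lc.C.CloseUlt
import Pool.Agent.Lib.MP_5c0be7_lc.C.DefAct
import Pool.Agent.Lib.MP_5c0be7_lc.C.Key
import Pool.Agent.Lib.MP_5c0be7_lc.C.Pres
import Pool.Agent.Lib.MP_5c0be7_lc.F.ActI
import Pool.Agent.Lib.MP_5c0be7_lc.F.Cmp
import Pool.Agent.Lib.MP_5c0be7_lc.F.Compat
import Pool.Agent.Lib.MP_5c0be7_lc.F.CutI
import Pool.Agent.Lib.MP_5c0be7_lc.F.Iter
import Pool.Agent.Lib.MP_5c0be7_lc.F.Size
import Pool.Agent.Lib.MP_5c0be7_lc.F.TreeC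
import Pool.Agent.Lib.MP_5c0be7_lc.G.Frag
import Pool.Agent.Lib.MP_5c0be7_lc.G.Gren
import Pool.Agent.Lib.MP_5c0be7_lc.K.ActI
import Pool.Agent.Lib.MP_5c0be7_lc.K.Crit
import Pool.Agent.Lib.MP_5c0be7_lc.K.DJ
import Pool.Agent.Lib.MP_5c0be7_lc.K.EvI
import Pool.Agent.Lib.MP_5c0be7_lc.K.Ext
import Pool.Agent.Lib.MP_5c0be7_lc.K.FragMk
import Pool.Agent.Lib.MP_5c0be7_lc.K.GoodI
import Pool.Agent.Lib.MP_5c0be7_lc.K.Hull
import Pool.Agent.Lib.MP_5c0be7_lc.K.II
import Pool.Agent.Lib.MP_5c0be7_lc.K.IterI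
import Pool.Agent.Lib.MP_5c0be7_lc.K.Max
import Pool.Agent.Lib.MP_5c0be7_lc.K.Real2
import Pool.Agent.Lib.MP_5c0be7_lc.K.Step
import Pool.Agent.Lib.MP_5c0be7_lc.K.TreeI
import Pool.Agent.Lib.MP_5c0be7_lc.K.Zorn
import Pool.Agent.Lib.MP_5c0be7_lc.L.Agree
import Pool.Agent.Lib.MP_5c0be7_lc.L.Bridge1
import Pool.Agent.Lib.MP_5c0be7_lc.L.Cond
import Pool.Agent.Lib.MP_5c0be7_lc.L.Hull
import Pool.Agent.Lib.MP_5c0be7_lc.L.Lim
import Pool.Agent.Lib.MP_5c0be7_lc.L.LimMap
import Pool.Agent.Lib.MP_5c0be7_lc.L.Los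
import Pool.Agent.Lib.MP_5c0be7_lc.L.LosAct
import Pool.Agent.Lib.MP_5c0be7_lc.L.LosPm
import Pool.Agent.Lib.MP_5c0be7_lc.L.Real
import Pool.Agent.Lib.MP_5c0be7_lc.L.RealWf
import Pool.Agent.Lib.MP_5c0be7_lc.L.Red
import Pool.Agent.Lib.MP_5c0be7_lc.L.UAct
import Pool.Agent.Lib.MP_5c0be7_lc.L.UF
import Pool.Agent.Lib.MP_5c0be7_lc.L.UId
import Pool.Agent.Lib.MP_5c0be7_lc.L.UPre
import Pool.Agent.Lib.MP_5c0be7_lc.L.URep
import Pool.Agent.Lib.MP_5c0be7_lc.L.UTop
import Pool.Agent.Lib.MP_5c0be7_lc.L.Ult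
import Pool.Agent.Lib.MP_5c0be7_lc.L.UltAct
import Pool.Agent.Lib.MP_5c0be7_lc.L.UltFact
import Pool.Agent.Lib.MP_5c0be7_lc.O.F3b
import Pool.Agent.Lib.MP_5c0be7_lc.O.F3c
import Pool.Agent.Lib.MP_5c0be7_lc.P.Cnd
import Pool.Agent.Lib.MP_5c0be7_lc.P.Core
import Pool.Agent.Lib.MP_5c0be7_lc.P.Phx
import Pool.Agent.Lib.MP_5c0be7_lc.T.BI
import Pool.Agent.Lib.MP_5c0be7_lc.T.Base
import Pool.Agent.Lib.MP_5c0be7_lc.T.BrTame
import Pool.Agent.Lib.MP_5c0be7_lc.T.Chain
import Pool.Agent.Lib.MP_5c0be7_lc.T.Cov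
import Pool.Agent.Lib.MP_5c0be7_lc.T.CovB
import Pool.Agent.Lib.MP_5c0be7_lc.T.Cts
import Pool.Agent.Lib.MP_5c0be7_lc.T.D3
import Pool.Agent.Lib.MP_5c0be7_lc.T.D4
import Pool.Agent.Lib.MP_5c0be7_lc.T.End
import Pool.Agent.Lib.MP_5c0be7_lc.T.HP
import Pool.Agent.Lib.MP_5c0be7_lc.T.HullX
import Pool.Agent.Lib.MP_5c0be7_lc.T.IILim
import Pool.Agent.Lib.MP_5c0be7_lc.T.IndI
import Pool.Agent.Lib.MP_5c0be7_lc.T.KMain
import Pool.Agent.Lib.MP_5c0be7_lc.T.LiftC
import Pool.Agent.Lib.MP_5c0be7_lc.T.LiftI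
import Pool.Agent.Lib.MP_5c0be7_lc.T.LinkI
import Pool.Agent.Lib.MP_5c0be7_lc.T.LocRet
import Pool.Agent.Lib.MP_5c0be7_lc.T.NM
import Pool.Agent.Lib.MP_5c0be7_lc.T.NoWin
import Pool.Agent.Lib.MP_5c0be7_lc.T.Out
import Pool.Agent.Lib.MP_5c0be7_lc.T.QDec
import Pool.Agent.Lib.MP_5c0be7_lc.T.Refl
import Pool.Agent.Lib.MP_5c0be7_lc.T.Ret
import Pool.Agent.Lib.MP_5c0be7_lc.T.S2
import Pool.Agent.Lib.MP_5c0be7_lc.T.S3
import Pool.Agent.Lib.MP_5c0be7_lc.T.S3Ref
import Pool.Agent.Lib.MP_5c0be7_lc.T.S4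
import Pool.Agent.Lib.MP_5c0be7_lc.T.S5
import Pool.Agent.Lib.MP_5c0be7_lc.T.SndI
import Pool.Agent.Lib.MP_5c0be7_lc.T.Str
import Pool.Agent.Lib.MP_5c0be7_lc.T.Tri
import Pool.Agent.Lib.MP_5c0be7_lc.T.Trunc2
import Pool.Agent.Lib.MP_5c0be7_lc.T.Type
import Pool.Agent.Lib.MP_5c0be7_lc.T.UStep
import Pool.Agent.Lib.MP_5c0be7_lc.T.UltBack
import Pool.Agent.Lib.MP_5c0be7_lc.T.UltII
import Pool.Agent.Lib.MP_5c0be7_lc.T.Win
import Pool.Agent.Lib.MP_5c0be7_lc.T.Wsl

/-!
Project KM: all blocks are put together.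
-/

namespace Pool.Agent.KM.Fin

instance iAccSt : AccSt.{1} := inferInstance
instance iRegSt : RegSt.{1} := inferInstance
instance iGrenSt : GrenSt.{1} := inferInstance
instance iDiagSt : DiagSt.{1} := inferInstance
instance iActSt : ActSt.{1} := inferInstance
instance iAgreeSt : AgreeSt.{1} := inferInstance
instance iAmenSt : AmenSt.{1} := inferInstance
instance iUltFactSt : UltFactSt.{1} := inferInstance
instance iCloseUltSt : CloseUltSt.{1} := inferInstance
instance iDefActSt : DefActSt.{1} := inferInstance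
instance iKEvSt : KEvSt.{1} := inferInstance
instance iNamedSt : NamedSt.{1} := inferInstance
instance iPresSt : PresSt.{1} := inferInstance
instance iCritSt : CritSt.{1} := inferInstance
instance iFragMkSt : FragMkSt.{1} := inferInstance
instance iFragSt : FragSt.{1} := inferInstance
instance iKActSt : KActSt.{1} := inferInstance
instance iUltActSt : UltActSt.{1} := inferInstance
instance iTreeSt : TreeSt.{1} := inferInstance
instance iBrSt : BrSt.{1} := inferInstance
instance iCompatSt : CompatSt.{1} := inferInstance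
instance iCutSt : CutSt.{1} := inferInstance
instance iSizeSt : SizeSt.{1} := inferInstance
instance iCmpSt : CmpSt.{1} := inferInstance
instance iLosActSt : LosActSt.{1} := inferInstance
instance iLosPmSt : LosPmSt.{1} := inferInstance
instance iRedSt : RedSt.{1} := inferInstance
instance iLosSt : LosSt.{1} := inferInstance
instance iCondSt : CondSt.{1} := inferInstance
instance iHullSt : HullSt.{1} := inferInstance
instance iKGoodSt : KGoodSt.{1} := inferInstance
instance iKHullSt : KHullSt.{1} := inferInstance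
instance iKIISt : KIISt.{1} := inferInstance
instance iRealSt : RealSt.{1} := inferInstance
instance iRealWfSt : RealWfSt.{1} := inferInstance
instance iKStepSt : KStepSt.{1} := inferInstance
instance iKTreeSt : KTreeSt.{1} := inferInstance
instance iLimMapSt : LimMapSt.{1} := inferInstance
instance iKRealSt : KRealSt.{1} := inferInstance
instance iLimSt : LimSt.{1} := inferInstance
instance iUIdSt : UIdSt.{1} := inferInstance
instance iUActSt : UActSt.{1} := inferInstance
instance iUFSt : UFSt.{1} := inferInstance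
instance iUPreSt : UPreSt.{1} := inferInstance
instance iURepSt : URepSt.{1} := inferInstance
instance iUTopSt : UTopSt.{1} := inferInstance
instance iUltSt : UltSt.{1} := inferInstance
instance iUltExSt : UltExSt.{1} := inferInstance
instance iIterSt : IterSt.{1} := inferInstance
instance iKWfSt : KWfSt.{1} := inferInstance
instance iKIterSt : KIterSt.{1} := inferInstance
instance iKeySt : KeySt.{1} := inferInstance
instance iUltIISt : UltIISt.{1} := inferInstance
instance iCtsSt : CtsSt.{1} := inferInstance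
instance iDJ1St : DJ1St.{1} := inferInstance
instance iKDJSt : KDJSt.{1} := inferInstance
instance iPhxSt : PhxSt.{1} := inferInstance
instance iCndSt : CndSt.{1} := inferInstance
instance iTypeSt : TypeSt.{1} := inferInstance
instance iReflSt : ReflSt.{1} := inferInstance
instance iNMSt : NMSt.{1} := inferInstance
instance iS3RefSt : S3RefSt.{1} := inferInstance
instance iS3St : S3St.{1} := inferInstance
instance iBrTameSt : BrTameSt.{1} := inferInstance
instance iTriSt : TriSt.{1} := inferInstance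
instance iNoWinSt : NoWinSt.{1} := inferInstance
instance iWinSt : WinSt.{1} := inferInstance
instance iBSt : BSt.{1} := inferInstance
instance iCovBSt : CovBSt.{1} := inferInstance
instance iChainSt : ChainSt.{1} := inferInstance
instance iEndSt : EndSt := inferInstance
instance iHullXSt : HullXSt.{1} := inferInstance
instance iLiftCSt : LiftCSt.{1} := inferInstance
instance iUnfUseSt : UnfUseSt.{1} := inferInstance
instance iKMainSt : KMainSt.{1} := inferInstance
instance iLinkSt : LinkSt.{1} := inferInstance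
instance iStrSt : StrSt.{1} := inferInstance
instance iTruncSt : TruncSt.{1} := inferInstance
instance iUBackSt : UBackSt.{1} := inferInstance
instance iRetSt : RetSt.{1} := inferInstance
instance iSndSt : SndSt.{1} := inferInstance
instance iUStepSt : UStepSt.{1} := inferInstance
instance iLiftSt : LiftSt.{1} := inferInstance
instance iOverSt : OverSt.{1} := inferInstance
instance iS5St : S5St.{1} := inferInstance
instance iWslSt : WslSt.{1} := inferInstance
instance iIndSt : IndSt.{1} := inferInstance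
instance iLocSt : LocSt.{1} := inferInstance
instance iCoreSt : CoreSt.{1} := inferInstance
instance iMaxSt : MaxSt.{1} := inferInstance
instance iExtSt : ExtSt.{1} := inferInstance
instance iZornSt : ZornSt.{1} := inferInstance
instance iBaseSt : BaseSt.{1} := inferInstance
instance iS4St : S4St.{1} := inferInstance
instance iHPSt : HPSt.{1} := inferInstance
instance iD3St : D3St.{1} := inferInstance
instance iD4St : D4St.{1} := inferInstance
instance iIILimSt : IILimSt.{1} := inferInstance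
instance iS2St : S2St.{1} := inferInstance
instance iOutSt : OutSt.{1} := inferInstance
instance iCovSt : CovSt := inferInstance

end Pool.Agent.KM.Fin
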